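import Pool.Agent.W_MP_012456_h20.Tail

set_option autoImplicit false

/-!
# MP_012456_co: the partial list colouring conjecture, asymptotically, for the on-line choice number

Let `G` be a finite graph on `n` vertices which is `s`-paintable (on-line `s`-choosable) and let
`1 ≤ t ≤ s`.  Then for every assignment `L` of `t`-element lists at least
`(1 - (1 + √(t log s / 2)) / s) * (t n / s)` vertices can be coloured from their lists, and the same
number of vertices can be painted in the on-line game in which every vertex is marked `t` times.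
-/

namespace Pool.Agent.Results.MP_012456_co.PaintableAsymptotic

open Pool.Agent.W_MP_012456_h20

universe u w

/-- for every assignment of `t`-element lists some set of at least `K` vertices can be properly
coloured from its lists -/
def ListColours {V : Type u} [Fintype V] [DecidableEq V] (G : SimpleGraph V) (t : ℕ) (K : ℝ) :
    Prop :=
  ∀ (C : Type w) [DecidableEq C] (L : V → Finset C), (∀ v, (L v).card = t) →
    ∃ (S : Finset V) (c : V → C), (∀ v ∈ S, c v ∈ L v) ∧
      (∀ a ∈ S, ∀ b ∈ S, G.Adj a b → c a ≠ c b) ∧ K ≤ (S.card : ℝ)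

theorem result {V : Type u} [Fintype V] [DecidableEq V] (G : SimpleGraph V) (s t : ℕ)
    (ht : 1 ≤ t) (hts : t ≤ s) (hG : Paintable G s) :
    (∀ K : ℝ, K = (1 - (1 + Real.sqrt (t * Real.log s / 2)) / s) * (t * Fintype.card V / s) →
      ListColours.{u, w} G t K ∧ CanPaint G t K) ∧
    (∀ k : ℕ, 1 ≤ k → ∀ ρ : ℝ, 0 ≤ ρ → ρ ≤ 1 → ∀ K : ℝ,
      K = (1 - binLt ρ t (s - k * t)) / (k + ρ) * Fintype.card V →
      ListColours.{u, w} G t K ∧ CanPaint G t K) := by
  have main : ∀ k : ℕ, 1 ≤ k → ∀ ρ : ℝ, 0 ≤ ρ → ρ ≤ 1 →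
      CanPaint G t ((1 - binLt ρ t (s - k * t)) / (k + ρ) * Fintype.card V) := by
    intro k hk ρ h0 h1
    have hk0 : (1 : ℝ) ≤ k := by exact_mod_cast hk
    have hpos : (0 : ℝ) < k + ρ := by linarith
    have hx : 1 / ((k : ℝ) + ρ) * (k + ρ) = 1 := by
      field_simp
    have h := canPaint_of_paintable G s t hG hk h0 h1 hx
      (isGain_bin h0 h1 (by positivity : (0 : ℝ) ≤ 1 / ((k : ℝ) + ρ)))
    have e : 1 / ((k : ℝ) + ρ) * (1 - binLt ρ t (s - k * t)) * (Fintype.card V : ℝ) =
        (1 - binLt ρ t (s - k * t)) / (k + ρ) * Fintype.card V := by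
      ring
    rwa [e] at h
  have both : ∀ K : ℝ, CanPaint G t K → ListColours.{u, w} G t K ∧ CanPaint G t K := by
    intro K hK
    refine ⟨?_, hK⟩
    intro C _ L hL
    exact exists_coloring_of_canPaint G t ht K hK L hL
  refine ⟨?_, ?_⟩
  · intro K hK
    apply both
    obtain ⟨k, hk, ρ, h0, h1, hb⟩ := bound s t ht hts
    apply (main k hk ρ h0 h1).mono
    rw [hK]
    have hn : (0 : ℝ) ≤ Fintype.card V := Nat.cast_nonneg _
    calc (1 - (1 + Real.sqrt (t * Real.log s / 2)) / s) * (t * Fintype.card V / s)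
        = (1 - (1 + Real.sqrt (t * Real.log s / 2)) / s) * ((t : ℝ) / s) * Fintype.card V := by
          ring
      _ ≤ _ := mul_le_mul_of_nonneg_right hb hn
  · intro k hk ρ h0 h1 K hK
    apply both
    rw [hK]
    exact main k hk ρ h0 h1

end Pool.Agent.Results.MP_012456_co.PaintableAsymptotic
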