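import Mathlib
import Pool.Agent.W_MP_012456_co.Separated

set_option autoImplicit false

namespace Pool.Agent.Results.MP_012456_co.SeparatedLists

open Pool.Agent.W_MP_012456_co

/-- The partial list colouring inequality for every list size `t ≤ s`, for all graphs that are
`Z_s`-colourable (in particular for all graphs that are `(s - 1)`-degenerate or
DP-`s`-colourable), when adjacent vertices have equal lists or lists with at most one common
colour. For lists of size two the last condition is automatic. -/
theorem result :
    ∀ (V : Type) [Fintype V] (G : SimpleGraph V) (s t : ℕ), 1 ≤ s → t ≤ s →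
      (ShiftColourable G s ∨ DPColourable G s ∨ Degenerate G (s - 1)) →
      ∀ L : V → Finset ℕ, (∀ v, (L v).card = t) →
        (t ≤ 2 ∨ ∀ u v, G.Adj u v → L u = L v ∨ (L u ∩ L v).card ≤ 1) →
        (∃ f : ZMod s → V → Option ℕ,
          (∀ k v c, f k v = some c → c ∈ L v) ∧
          (∀ k u v c, G.Adj u v → f k u = some c → f k v ≠ some c) ∧
          (∀ v, ∀ c ∈ L v, ∃! k, f k v = some c)) ∧
        ∃ S : Finset V, ∃ c : V → ℕ,
          (∀ v ∈ S, c v ∈ L v) ∧
          (∀ u ∈ S, ∀ v ∈ S, G.Adj u v → c u ≠ c v) ∧
          t * Fintype.card V ≤ s * S.card := by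
  intro V _ G s t hs hts hG L hL hsep
  have hshift : ShiftColourable G s := by
    rcases hG with h | h | h
    · exact h
    · exact shiftColourable_of_DP G s h
    · exact shiftColourable_of_degenerate G s hs h
  have hsep' : ∀ u v, G.Adj u v → L u = L v ∨ (L u ∩ L v).card ≤ 1 := by
    rcases hsep with h2 | h2
    · intro u v _
      by_cases hc : (L u ∩ L v).card ≤ 1
      · right; exact hc
      · left
        have hge : 2 ≤ (L u ∩ L v).card := by omega
        have e1 : L u ∩ L v = L u :=
          Finset.eq_of_subset_of_card_le Finset.inter_subset_left (by rw [hL u]; omega)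
        have e2 : L u ∩ L v = L v :=
          Finset.eq_of_subset_of_card_le Finset.inter_subset_right (by rw [hL v]; omega)
        rw [← e1, e2]
    · exact h2
  obtain ⟨f, h1, h2, h3⟩ :=
    packing_separated G s hs hshift L (fun v => by rw [hL v]; exact hts) hsep'
  refine ⟨⟨f, h1, h2, h3⟩, ?_⟩
  obtain ⟨S, c, g1, g2, g3⟩ := large_of_packing' G s hs L f h1 h2 h3
  refine ⟨S, c, g1, g2, ?_⟩
  have : ∑ v : V, (L v).card = t * Fintype.card V := by
    rw [Finset.sum_congr rfl (fun v _ => hL v)]
    simp [Finset.card_univ, mul_comm]
  omega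

end Pool.Agent.Results.MP_012456_co.SeparatedLists
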